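import Mathlib
import Pool.Agent.Q34.RT.Gal

set_option autoImplicit false

/-! # Sums of few radicals times vectors with given zeros: bounded exponents -/

namespace Pool.Agent.Q34.RT

open Finset Pool.Agent.H533R3.SL Pool.Agent.Q34.CL Pool.Agent.Q34.RD

variable {n r : ℕ}

/-- **Points off `G = 0` given by few radicals come from radicals with bounded exponents.** -/
theorem bounded_radical {k K Ω : Type} [Field k] [Field K] [Field Ω] [CharZero K] [Algebra k K]
    [Algebra K Ω] [Algebra k Ω] [IsScalarTower k K Ω] [IsAlgClosed Ω] [Algebra.IsAlgebraic K Ω]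
    (FF : Set (MvPolynomial (Fin (n + 1)) k)) (d : ℕ) (hd : 1 ≤ d)
    (hFF : ∀ F ∈ FF, ∃ e, e ≤ d ∧ F.IsHomogeneous e)
    (G : MvPolynomial (Fin (n + 1)) k) (hGh : ∃ e, G.IsHomogeneous e)
    (T : Set (Fin r × Fin (n + 1)))
    (hG : ∀ (c : Fin r → Fin (n + 1) → Ω) (l : Fin r → ℕ),
        (∀ j a, (j, a) ∉ T → c j a = 0) →
        (∀ F ∈ FF, MvPolynomial.aeval (cur c l) F = 0) →
        (∃ i i', cur c l i * Polynomial.C (∑ j, c j i') ≠
          cur c l i' * Polynomial.C (∑ j, c j i)) →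
        MvPolynomial.aeval (fun i => ∑ j, c j i) G = 0)
    (D : ℕ) (hK : CycDegree K Ω D) (V : Fin r → Fin (n + 1) → K)
    (hVT : ∀ j a, (j, a) ∉ T → V j a = 0) (u : Fin r → Ω)
    (hu : ∀ j, ∃ N : ℕ, 0 < N ∧ ∃ a : K, algebraMap K Ω a = u j ^ N)
    (hx : OnOff FF G (lin u V)) :
    ∃ B, 0 < B ∧ B ≤ radBound r d D ∧ ∃ (w : Fin r → Ω) (c : Ω),
      (∀ j, ∃ a : K, algebraMap K Ω a = w j ^ B) ∧ c ≠ 0 ∧ ∀ i, lin w V i = c * lin u V i := by
  classical
  have hcK : CharZero Ω := charZero_of_injective_algebraMap (algebraMap K Ω).injective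
  have hac : IsAlgClosure K Ω := ⟨inferInstance, inferInstance⟩
  have hnor : Normal K Ω := IsAlgClosure.normal K Ω
  have hgal : IsGalois K Ω := ⟨⟩
  -- the nonzero terms
  let J0 : Finset (Fin r) := Finset.univ.filter (fun j => u j ≠ 0)
  have hJ0 : ∀ i, comb J0 u V i = lin u V i := by
    intro i
    unfold comb lin
    rw [← Finset.sum_filter_add_sum_filter_not Finset.univ (fun j => u j ≠ 0)]
    have h1 : ∑ j ∈ Finset.univ.filter (fun j => ¬ u j ≠ 0), u j * algebraMap K Ω (V j i) = 0 := by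
      refine Finset.sum_eq_zero fun j hj => ?_
      rw [Finset.mem_filter, not_not] at hj
      rw [hj.2, zero_mul]
    rw [h1, add_zero]
  obtain ⟨J, hJs, ⟨c0, hc0, hJc⟩, hmin⟩ := exists_min_block J0 V u
  simp_rw [hJ0] at hJc
  obtain ⟨hx0, hxF, hxG⟩ := hx
  have hcombJ : comb J u V = fun i => c0 * lin u V i := funext hJc
  have hJ0' : comb J u V ≠ 0 := by
    intro h
    apply hx0
    funext i
    have := congrFun h i
    rw [hJc] at this
    exact (mul_eq_zero.1 this).resolve_left hc0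
  have hJF : ∀ F ∈ FF, MvPolynomial.aeval (comb J u V) F = 0 := by
    intro F hF
    obtain ⟨e, _, he⟩ := hFF F hF
    rw [hcombJ, aeval_hom_smul F he, hxF F hF, mul_zero]
  have hJG : MvPolynomial.aeval (comb J u V) G ≠ 0 := by
    obtain ⟨e, he⟩ := hGh
    rw [hcombJ, aeval_hom_smul G he]
    exact mul_ne_zero (pow_ne_zero _ hc0) hxG
  have hu0 : ∀ j ∈ J, u j ≠ 0 := fun j hj => (Finset.mem_filter.1 (hJs hj)).2
  have hJne : J.Nonempty := by
    rw [Finset.nonempty_iff_ne_empty]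
    rintro rfl
    apply hJ0'
    funext i
    simp [comb]
  obtain ⟨j1, hj1⟩ := hJne
  have hr : 1 ≤ r := by
    have := j1.2
    omega
  -- a common exponent
  choose N hN huN using hu
  set N1 := ∏ j, N j with hN1
  have hN10 : 0 < N1 := Finset.prod_pos fun j _ => hN j
  have huN1 : ∀ j, ∃ a : K, algebraMap K Ω a = u j ^ N1 := by
    intro j
    obtain ⟨a, ha⟩ := huN j
    obtain ⟨q, hq⟩ := Finset.dvd_prod_of_mem N (Finset.mem_univ j)
    refine ⟨a ^ q, ?_⟩
    rw [hN1, hq, pow_mul, map_pow, ha]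
  have : NeZero (N1 : Ω) := ⟨by exact_mod_cast hN10.ne'⟩
  obtain ⟨ζ, hζ⟩ := HasEnoughRootsOfUnity.exists_primitiveRoot Ω N1
  have hζ0 : ζ ≠ 0 := hζ.ne_zero hN10.ne'
  -- the quotients
  have hquot0 : ∀ j ∈ J, u j / u j1 ≠ 0 := fun j hj => div_ne_zero (hu0 j hj) (hu0 j1 hj1)
  have hquot : ∀ j ∈ J, ∃ a : K, algebraMap K Ω a = (u j / u j1) ^ N1 := by
    intro j _
    obtain ⟨a, ha⟩ := huN1 j
    obtain ⟨b, hb⟩ := huN1 j1
    exact ⟨a / b, by rw [map_div₀, ha, hb, div_pow]⟩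
  have hfix : ∀ j ∈ J, ∀ σ : Ω ≃ₐ[K] Ω, σ ζ = ζ →
      σ ((u j / u j1) ^ Nat.factorial ((2 * d + 1) ^ r)) =
        (u j / u j1) ^ Nat.factorial ((2 * d + 1) ^ r) := by
    intro j hj σ hσ
    obtain ⟨e, he0, hele, he⟩ := gal_step FF d hFF G T hG N1 hN10 ζ hζ J V hVT u hu0
      (fun j _ => huN1 j) hJ0' hJF hJG hmin j1 hj1 σ hσ
    obtain ⟨q, hq⟩ := Nat.dvd_factorial he0 hele
    rw [map_pow, hq, pow_mul, he j hj, pow_mul]
  have hkey : ∀ j ∈ J, ∃ (ρ : Ω) (a : K), ρ ^ N1 = 1 ∧ (u j / u j1) ^ radExp r d D =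
      ρ * algebraMap K Ω a := by
    intro j hj
    obtain ⟨a0, ha0⟩ := hquot j hj
    obtain ⟨g, B, a, z, hg0, hz, hga⟩ := sah N1 hN10 ζ hζ
      ((u j / u j1) ^ Nat.factorial ((2 * d + 1) ^ r)) (pow_ne_zero _ (hquot0 j hj))
      ⟨a0 ^ Nat.factorial ((2 * d + 1) ^ r), by rw [map_pow, ha0, ← pow_mul, ← pow_mul, mul_comm]⟩
      (hfix j hj)
    obtain ⟨q, hq⟩ := Nat.dvd_factorial hg0 (roots_bound D hK g hg0 z hz)
    refine ⟨(ζ ^ B) ^ q, a ^ q, ?_, ?_⟩
    · rw [← pow_mul, mul_comm q, pow_mul, ← zpow_natCast (ζ ^ B), zpow_comm, zpow_natCast,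
        hζ.pow_eq_one, one_zpow, one_pow]
    · rw [radExp, pow_mul, hq, pow_mul, hga, mul_pow, map_pow]
  have hkey' : ∀ j, ∃ (ρ : Ω) (a : K), j ∈ J → ρ ^ N1 = 1 ∧ (u j / u j1) ^ radExp r d D =
      ρ * algebraMap K Ω a := by
    intro j
    by_cases hj : j ∈ J
    · obtain ⟨ρ, a, h⟩ := hkey j hj
      exact ⟨ρ, a, fun _ => h⟩
    · exact ⟨0, 0, fun h => absurd h hj⟩
  choose ρ a hρa using hkey'
  have hM0 : 0 < radExp r d D := radExp_pos r d D
  set M := radExp r d D with hM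
  have hroots : ∀ j, ∃ γ : Ω, γ ^ M = algebraMap K Ω (a j) := fun j =>
    IsAlgClosed.exists_pow_nat_eq _ hM0
  choose γ hγ using hroots
  have hγ0 : ∀ j ∈ J, γ j ≠ 0 := by
    intro j hj h
    have h1 := (hρa j hj).2
    rw [← hγ, h, zero_pow hM0.ne', mul_zero] at h1
    exact pow_ne_zero _ (hquot0 j hj) h1
  obtain ⟨K', hfd, hrank, hγK⟩ := radical_field M hM0 γ (fun j => ⟨a j, (hγ j).symm⟩) Finset.univ
  rw [Finset.card_univ, Fintype.card_fin] at hrank
  have hcyc : CycDegree K' Ω (D * M ^ r) := cycDegree_ext K' D (M ^ r) hrank hK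
  let V' : Fin r → Fin (n + 1) → K' := fun j i =>
    (⟨γ j, hγK j (Finset.mem_univ j)⟩ : K') * algebraMap K K' (V j i)
  let u' : Fin r → Ω := fun j => if j ∈ J then u j / u j1 / γ j else 0
  have hV' : ∀ j i, algebraMap K' Ω (V' j i) = γ j * algebraMap K Ω (V j i) := by
    intro j i
    show algebraMap K' Ω ((⟨γ j, hγK j (Finset.mem_univ j)⟩ : K') * algebraMap K K' (V j i)) = _
    rw [map_mul, ← IsScalarTower.algebraMap_apply K K' Ω]
    rfl
  have hlin : ∀ i, lin u' V' i = ((u j1)⁻¹ * c0) * lin u V i := by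
    intro i
    have h0 : lin u' V' i = (u j1)⁻¹ * comb J u V i := by
      unfold comb lin
      rw [← Finset.sum_filter_add_sum_filter_not Finset.univ (fun j => j ∈ J),
        Finset.filter_mem_eq_inter, Finset.univ_inter, Finset.mul_sum]
      have h1 : ∑ j ∈ Finset.univ.filter (fun j => j ∉ J),
          u' j * algebraMap K' Ω (V' j i) = 0 := by
        refine Finset.sum_eq_zero fun j hj => ?_
        rw [Finset.mem_filter] at hj
        simp only [u', if_neg hj.2, zero_mul]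
      rw [h1, add_zero]
      refine Finset.sum_congr rfl fun j hj => ?_
      simp only [u', if_pos hj]
      rw [hV']
      have := hγ0 j hj
      have := hu0 j1 hj1
      field_simp
    rw [h0, hJc, mul_assoc]
  have hc1 : (u j1)⁻¹ * c0 ≠ 0 := mul_ne_zero (inv_ne_zero (hu0 j1 hj1)) hc0
  have hlinf : lin u' V' = fun i => ((u j1)⁻¹ * c0) * lin u V i := funext hlin
  have hon : OnOff FF G (lin u' V') := by
    refine ⟨?_, ?_, ?_⟩
    · intro h
      apply hx0
      funext i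
      have := congrFun h i
      rw [hlin] at this
      exact (mul_eq_zero.1 this).resolve_left hc1
    · intro F hF
      obtain ⟨e, _, he⟩ := hFF F hF
      rw [hlinf, aeval_hom_smul F he, hxF F hF, mul_zero]
    · obtain ⟨e, he⟩ := hGh
      rw [hlinf, aeval_hom_smul G he]
      exact mul_ne_zero (pow_ne_zero _ hc1) hxG
  have hu' : ∀ j, u' j = 0 ∨ ∃ m : ℕ, 0 < m ∧ u' j ^ m = 1 := by
    intro j
    by_cases hj : j ∈ J
    · right
      refine ⟨M * N1, Nat.mul_pos hM0 hN10, ?_⟩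
      simp only [u', if_pos hj]
      obtain ⟨h1, h2⟩ := hρa j hj
      have h3 : (u j / u j1 / γ j) ^ M = ρ j := by
        rw [div_pow, h2, ← hγ, mul_div_assoc, div_self (pow_ne_zero _ (hγ0 j hj)), mul_one]
      rw [pow_mul, h3, h1]
    · left
      simp only [u', if_neg hj]
  have htow : IsScalarTower k K' Ω := by
    refine IsScalarTower.of_algebraMap_eq fun x => ?_
    rw [IsScalarTower.algebraMap_apply k K Ω, IsScalarTower.algebraMap_apply K K' Ω,
      ← IsScalarTower.algebraMap_apply k K K']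
  obtain ⟨m, hm, hmle, w', c', hw', hc', hww⟩ := bounded_order (L := Ω) FF d hd hFF G hGh T hG
    (D * M ^ r) hcyc V' (fun j a hja => by
      simp only [V']
      rw [hVT j a hja, map_zero, mul_zero]) u' hu' hon
  refine ⟨m * M, Nat.mul_pos hm hM0, Nat.mul_le_mul_right _ hmle, fun j => w' j * γ j,
    c' * ((u j1)⁻¹ * c0), fun j => ?_, mul_ne_zero hc' hc1, fun i => ?_⟩
  · have h1 : (w' j * γ j) ^ (m * M) = (w' j ^ m) ^ M * algebraMap K Ω (a j ^ m) := by
      rw [mul_pow, pow_mul (w' j), mul_comm m M, pow_mul (γ j), hγ, map_pow]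
    rcases hw' j with h | h
    · exact ⟨0, by rw [h1, h, zero_pow hm.ne', zero_pow hM0.ne', zero_mul, map_zero]⟩
    · exact ⟨a j ^ m, by rw [h1, h, one_pow, one_mul]⟩
  · have h1 : lin (fun j => w' j * γ j) V i = lin w' V' i := by
      unfold lin
      refine Finset.sum_congr rfl fun j _ => ?_
      rw [hV', mul_assoc]
    rw [h1, hww, hlin]
    ring

end Pool.Agent.Q34.RT
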