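import Mathlib
import Pool.Agent.Q34.RT.Main
import Pool.Agent.W235.RM.Final

set_option autoImplicit false

/-! # Homogenisation of the conditions for affine varieties -/

namespace Pool.Agent.Q34.RT

open Finset Pool.Agent.H533R3.SL Pool.Agent.Q34.CL Pool.Agent.Q34.RD Pool.Agent.W235.RM
open Pool.Agent.H159R3.Exp (Laur ExpCurvesIn)
open scoped NumberField

variable {n r : ℕ} {K : Type} [Field K] {ι κ : Type}

/-- the homogenised equations -/
def FFh (d : ℕ) (F : ι → MvPolynomial (Fin n) (𝓞 K)) : Set (MvPolynomial (Fin (n + 1)) K) :=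
  Set.range fun i => MvPolynomial.map (algebraMap (𝓞 K) K) (hmg d (F i))

/-- the homogenised inequation, multiplied by the new variable -/
noncomputable def Gh (g : MvPolynomial (Fin n) (𝓞 K)) : MvPolynomial (Fin (n + 1)) K :=
  MvPolynomial.X 0 * MvPolynomial.map (algebraMap (𝓞 K) K) (hmg g.totalDegree g)

theorem FFh_hom (d : ℕ) (F : ι → MvPolynomial (Fin n) (𝓞 K)) (hF : ∀ i, (F i).totalDegree ≤ d) :
    ∀ P ∈ FFh d F, ∃ e, e ≤ d ∧ P.IsHomogeneous e := by
  rintro _ ⟨i, rfl⟩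
  exact ⟨d, le_rfl, (hmg_homog d (F i) (hF i)).map _⟩

theorem Gh_hom (g : MvPolynomial (Fin n) (𝓞 K)) : ∃ e, (Gh g).IsHomogeneous e :=
  ⟨1 + g.totalDegree, (MvPolynomial.isHomogeneous_X _ _).mul
    ((hmg_homog g.totalDegree g le_rfl).map _)⟩

variable {Ω : Type} [Field Ω] [Algebra K Ω]

theorem aeval_hmg (d : ℕ) (F : MvPolynomial (Fin n) (𝓞 K)) (hF : F.totalDegree ≤ d) (t : Ω)
    (x : Fin n → Ω) :
    MvPolynomial.aeval (Fin.cons t (fun i => t * x i) : Fin (n + 1) → Ω)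
      (MvPolynomial.map (algebraMap (𝓞 K) K) (hmg d F)) =
      t ^ d * MvPolynomial.eval₂ ((algebraMap K Ω).comp (algebraMap (𝓞 K) K)) x F := by
  rw [MvPolynomial.aeval_def, MvPolynomial.eval₂_map]
  exact hmg_eval _ d F hF t x

theorem aeval_Gh (g : MvPolynomial (Fin n) (𝓞 K)) (t : Ω) (x : Fin n → Ω) :
    MvPolynomial.aeval (Fin.cons t (fun i => t * x i) : Fin (n + 1) → Ω) (Gh g) =
      t ^ (g.totalDegree + 1) *
        MvPolynomial.eval₂ ((algebraMap K Ω).comp (algebraMap (𝓞 K) K)) x g := by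
  unfold Gh
  rw [map_mul, MvPolynomial.aeval_X, aeval_hmg _ g le_rfl, Fin.cons_zero]
  ring

/-- the coefficients which may be nonzero: the first vector is a multiple of the first basis
vector, the others are orthogonal to it -/
def TT (n r : ℕ) : Set (Fin (r + 1) × Fin (n + 1)) := {p | p.1 = 0 ↔ p.2 = 0}

theorem mem_TT (j : Fin (r + 1)) (a : Fin (n + 1)) : (j, a) ∈ TT n r ↔ (j = 0 ↔ a = 0) := Iff.rfl

theorem cons_eq {L : Type} [Field L] (s : Fin (n + 1) → L) (h : s 0 ≠ 0) :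
    s = Fin.cons (s 0) (fun a => s 0 * (s a.succ / s 0)) := by
  funext b
  refine Fin.cases ?_ (fun a => ?_) b
  · rw [Fin.cons_zero]
  · rw [Fin.cons_succ, mul_div_cancel₀ _ h]

/-- **Laurent curves.** -/
theorem hyp_of_gm [NumberField K] (σ : K →+* ℂ) (F : ι → MvPolynomial (Fin n) (𝓞 K))
    (G : κ → MvPolynomial (Fin n) (𝓞 K)) (h : GmCurvesIn σ F G) (d : ℕ)
    (hF : ∀ i, (F i).totalDegree ≤ d) (k0 : κ) [Algebra.IsAlgebraic K Ω]
    (c : Fin (r + 1) → Fin (n + 1) → Ω) (l : Fin (r + 1) → ℕ)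
    (hcT : ∀ j a, (j, a) ∉ TT n r → c j a = 0)
    (hz : ∀ P ∈ FFh d F, MvPolynomial.aeval (cur c l) P = 0)
    (hnc : ∃ i i', cur c l i * Polynomial.C (∑ j, c j i') ≠
      cur c l i' * Polynomial.C (∑ j, c j i)) :
    MvPolynomial.aeval (fun i => ∑ j, c j i) (Gh (G k0)) = 0 := by
  classical
  by_contra hne
  let _ : Algebra K ℂ := σ.toAlgebra
  let τ : Ω →ₐ[K] ℂ := IsAlgClosed.lift
  have hτi : Function.Injective τ := (τ : Ω →+* ℂ).injective
  have hτσ : ((τ : Ω →+* ℂ).comp ((algebraMap K Ω).comp (algebraMap (𝓞 K) K))) =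
      σ.comp (algebraMap (𝓞 K) K) := by
    ext a
    exact τ.commutes _
  have hτe : ∀ (x : Fin n → Ω) (Q : MvPolynomial (Fin n) (𝓞 K)),
      τ (MvPolynomial.eval₂ ((algebraMap K Ω).comp (algebraMap (𝓞 K) K)) x Q) =
        MvPolynomial.eval₂ (σ.comp (algebraMap (𝓞 K) K)) (fun j => τ (x j)) Q := by
    intro x Q
    have h2 := MvPolynomial.hom_eval₂ Q ((algebraMap K Ω).comp (algebraMap (𝓞 K) K))
      (τ : Ω →+* ℂ) x
    rw [hτσ] at h2
    exact h2
  let s : Fin (n + 1) → Ω := fun i => ∑ j, c j i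
  have hs0 : s 0 = c 0 0 := by
    show ∑ j, c j 0 = c 0 0
    rw [Fin.sum_univ_succ, Finset.sum_eq_zero, add_zero]
    intro j _
    apply hcT
    rw [mem_TT]
    simp
  have hsne : s 0 ≠ 0 := by
    intro h0
    apply hne
    show MvPolynomial.aeval s (Gh (G k0)) = 0
    unfold Gh
    rw [map_mul, MvPolynomial.aeval_X, h0, zero_mul]
  have hG1 : MvPolynomial.eval₂ ((algebraMap K Ω).comp (algebraMap (𝓞 K) K))
      (fun a => s a.succ / s 0) (G k0) ≠ 0 := by
    intro h0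
    apply hne
    show MvPolynomial.aeval s (Gh (G k0)) = 0
    rw [cons_eq s hsne, aeval_Gh, h0, mul_zero]
  -- the curve
  let Q : Fin n → Polynomial ℂ := fun a => ∑ j : Fin r,
    Polynomial.C (τ (c j.succ a.succ) / τ (s 0)) * Polynomial.X ^ (l j.succ)
  let v : ℂ → Fin n → ℂ := fun t a => (Q a).eval t / t ^ (l 0)
  have hτs : τ (s 0) ≠ 0 := (map_ne_zero_iff (τ : Ω →+* ℂ) hτi).2 hsne
  -- evaluation
  let Ψ : ℂ → (Polynomial Ω →+* ℂ) := fun t => Polynomial.eval₂RingHom (τ : Ω →+* ℂ) t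
  have hΨ : ∀ t : ℂ, t ≠ 0 → (fun b => Ψ t (cur c l b)) =
      Fin.cons (τ (s 0) * t ^ (l 0)) (fun a => τ (s 0) * t ^ (l 0) * v t a) := by
    intro t ht
    funext b
    have h1 : Ψ t (cur c l b) = ∑ j, τ (c j b) * t ^ (l j) := by
      show Polynomial.eval₂ (τ : Ω →+* ℂ) t (∑ j, Polynomial.C (c j b) * Polynomial.X ^ (l j)) = _
      rw [Polynomial.eval₂_finsetSum]
      refine Finset.sum_congr rfl fun j _ => ?_
      rw [Polynomial.eval₂_mul, Polynomial.eval₂_C, Polynomial.eval₂_X_pow]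
      rfl
    rw [h1, Fin.sum_univ_succ]
    refine Fin.cases ?_ (fun a => ?_) b
    · rw [Fin.cons_zero, Finset.sum_eq_zero, add_zero, hs0]
      intro j _
      rw [hcT j.succ 0 (by rw [mem_TT]; simp), map_zero, zero_mul]
    · rw [Fin.cons_succ, hcT 0 a.succ (by rw [mem_TT]; simp), map_zero, zero_mul, zero_add]
      show _ = τ (s 0) * t ^ (l 0) * ((Q a).eval t / t ^ (l 0))
      have h2 : (Q a).eval t = ∑ j : Fin r, τ (c j.succ a.succ) / τ (s 0) * t ^ (l j.succ) := by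
        show (∑ j : Fin r, Polynomial.C (τ (c j.succ a.succ) / τ (s 0)) *
          Polynomial.X ^ (l j.succ)).eval t = _
        rw [Polynomial.eval_finsetSum]
        refine Finset.sum_congr rfl fun j _ => ?_
        rw [Polynomial.eval_mul, Polynomial.eval_C, Polynomial.eval_pow, Polynomial.eval_X]
      have h3 : t ^ (l 0) ≠ 0 := pow_ne_zero _ ht
      rw [mul_assoc, mul_div_cancel₀ _ h3, h2, Finset.mul_sum]
      refine Finset.sum_congr rfl fun j _ => ?_
      field_simp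
  have hΨP : ∀ (t : ℂ) (P : MvPolynomial (Fin (n + 1)) K),
      Ψ t (MvPolynomial.aeval (cur c l) P) =
        MvPolynomial.aeval (fun b => Ψ t (cur c l b)) P := by
    intro t P
    rw [MvPolynomial.aeval_def, MvPolynomial.aeval_def]
    have h2 := MvPolynomial.hom_eval₂ P (algebraMap K (Polynomial Ω)) (Ψ t) (cur c l)
    rw [h2]
    congr 1
    ext a
    show Polynomial.eval₂ (τ : Ω →+* ℂ) t (algebraMap K (Polynomial Ω) a) = algebraMap K ℂ a
    rw [IsScalarTower.algebraMap_apply K Ω (Polynomial Ω), Polynomial.algebraMap_apply,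
      Algebra.algebraMap_self, RingHom.id_apply, Polynomial.eval₂_C]
    exact τ.commutes a
  have hvF : ∀ i t, t ≠ 0 → MvPolynomial.eval₂ (σ.comp (algebraMap (𝓞 K) K)) (v t) (F i) = 0 := by
    intro i t ht
    have h1 := hΨP t (MvPolynomial.map (algebraMap (𝓞 K) K) (hmg d (F i)))
    rw [hz _ ⟨i, rfl⟩, map_zero, hΨ t ht, aeval_hmg d (F i) (hF i)] at h1
    exact (mul_eq_zero.1 h1.symm).resolve_left
      (pow_ne_zero _ (mul_ne_zero hτs (pow_ne_zero _ ht)))
  have hΨ1 : ∀ b, Ψ 1 (cur c l b) = τ (s b) := by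
    intro b
    show Polynomial.eval₂ (τ : Ω →+* ℂ) 1 (∑ j, Polynomial.C (c j b) * Polynomial.X ^ (l j)) =
      τ (∑ j, c j b)
    rw [Polynomial.eval₂_finsetSum, map_sum]
    refine Finset.sum_congr rfl fun j _ => ?_
    rw [Polynomial.eval₂_mul, Polynomial.eval₂_C, Polynomial.eval₂_X_pow, one_pow, mul_one]
    rfl
  have hvnc : ∃ t t', t ≠ 0 ∧ t' ≠ 0 ∧ v t ≠ v t' := by
    by_contra hcon
    push Not at hcon
    obtain ⟨i, i', hii⟩ := hnc
    apply hii
    have hcoord : ∀ t : ℂ, t ≠ 0 → ∀ b, Ψ t (cur c l b) = t ^ (l 0) * τ (s b) := by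
      intro t ht b
      have h1 := congrFun (hΨ t ht) b
      have h2 := congrFun (hΨ 1 one_ne_zero) b
      rw [hΨ1] at h2
      rw [h1, h2, hcon t 1 ht one_ne_zero]
      refine Fin.cases ?_ (fun a => ?_) b
      · rw [Fin.cons_zero, Fin.cons_zero, one_pow, mul_one, mul_comm]
      · rw [Fin.cons_succ, Fin.cons_succ, one_pow, mul_one]
        ring
    apply Polynomial.map_injective (τ : Ω →+* ℂ) hτi
    rw [← sub_eq_zero]
    refine Polynomial.eq_zero_of_infinite_isRoot _ ?_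
    refine Set.Infinite.mono ?_ ((Set.finite_singleton (0 : ℂ)).infinite_compl)
    intro t ht
    have ht' : t ≠ 0 := ht
    show Polynomial.eval t (_ - _) = 0
    rw [Polynomial.eval_sub, ← Polynomial.eval₂_eq_eval_map, ← Polynomial.eval₂_eq_eval_map]
    show Ψ t (cur c l i * Polynomial.C (s i')) - Ψ t (cur c l i' * Polynomial.C (s i)) = 0
    rw [map_mul, map_mul, hcoord t ht', hcoord t ht']
    have h3 : ∀ b, Ψ t (Polynomial.C (s b)) = τ (s b) := by
      intro b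
      show Polynomial.eval₂ (τ : Ω →+* ℂ) t (Polynomial.C (s b)) = _
      rw [Polynomial.eval₂_C]
      rfl
    rw [h3, h3]
    ring
  have h1 := h v (fun a => ⟨l 0, Q a, fun t ht => div_mul_cancel₀ _ (pow_ne_zero _ ht)⟩) hvF hvnc
    k0 1 one_ne_zero
  apply hG1
  apply hτi
  rw [hτe, map_zero, ← h1]
  congr 1
  funext a
  have h2 := congrFun (hΨ 1 one_ne_zero) a.succ
  rw [hΨ1, Fin.cons_succ, one_pow, mul_one] at h2
  rw [map_div₀, h2, mul_div_cancel_left₀ _ hτs]

end Pool.Agent.Q34.RT
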