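import Mathlib
import Pool.Agent.Q34.RT.Hom
import Pool.Agent.Q34.RD.Fin

set_option autoImplicit false

/-! # Cyclotomic and radical points of affine varieties -/

namespace Pool.Agent.Q34.RT

open Finset Pool.Agent.H533R3.SL Pool.Agent.Q34.CL Pool.Agent.Q34.RD Pool.Agent.W235.RM
open Pool.Agent.H159R3.Exp (Laur ExpCurvesIn)
open Pool.Agent.Helper259.AbsHt
open scoped NumberField

variable {n r : ℕ} {K : Type} [Field K] {ι κ : Type}

/-- `x` is a point of `V` outside `V'` -/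
def AffOn {Ω : Type} [Field Ω] [Algebra K Ω] (F : ι → MvPolynomial (Fin n) (𝓞 K))
    (G : κ → MvPolynomial (Fin n) (𝓞 K)) (x : Fin n → Ω) : Prop :=
  (∀ i, MvPolynomial.eval₂ ((algebraMap K Ω).comp (algebraMap (𝓞 K) K)) x (F i) = 0) ∧
    ∃ l, MvPolynomial.eval₂ ((algebraMap K Ω).comp (algebraMap (𝓞 K) K)) x (G l) ≠ 0

/-- the vector `∑ j, u j V j` -/
def asum {L Ω : Type} [Field L] [Field Ω] [Algebra L Ω] (u : Fin r → Ω)
    (V : Fin r → Fin n → L) (a : Fin n) : Ω :=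
  ∑ j, u j * algebraMap L Ω (V j a)

/-- the homogenised vectors -/
def Vh {L : Type} [Field L] (V : Fin r → Fin n → L) : Fin (r + 1) → Fin (n + 1) → L :=
  Fin.cons (Fin.cons 1 (fun _ => 0)) (fun j => Fin.cons 0 (V j))

theorem Vh_T {L : Type} [Field L] (V : Fin r → Fin n → L) (j : Fin (r + 1)) (a : Fin (n + 1))
    (h : (j, a) ∉ TT n r) : Vh V j a = 0 := by
  rw [mem_TT] at h
  unfold Vh
  revert h
  refine Fin.cases ?_ (fun j => ?_) j <;> refine Fin.cases ?_ (fun a => ?_) a <;> intro h <;>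
    simp_all

theorem lin_Vh {L Ω : Type} [Field L] [Field Ω] [Algebra L Ω] (w : Fin (r + 1) → Ω)
    (V : Fin r → Fin n → L) :
    lin w (Vh V) = Fin.cons (w 0) (asum (fun j => w j.succ) V) := by
  funext b
  unfold lin
  rw [Fin.sum_univ_succ]
  refine Fin.cases ?_ (fun a => ?_) b
  · simp [Vh]
  · simp [Vh, asum]

theorem onOff_of_affOn {Ω : Type} [Field Ω] [Algebra K Ω] (F : ι → MvPolynomial (Fin n) (𝓞 K))
    (G : κ → MvPolynomial (Fin n) (𝓞 K)) (d : ℕ) (hF : ∀ i, (F i).totalDegree ≤ d)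
    (x : Fin n → Ω)
    (hx : ∀ i, MvPolynomial.eval₂ ((algebraMap K Ω).comp (algebraMap (𝓞 K) K)) x (F i) = 0)
    (l : κ) (hl : MvPolynomial.eval₂ ((algebraMap K Ω).comp (algebraMap (𝓞 K) K)) x (G l) ≠ 0) :
    OnOff (FFh d F) (Gh (G l)) (Fin.cons 1 x : Fin (n + 1) → Ω) := by
  have h1 : (Fin.cons 1 x : Fin (n + 1) → Ω) = Fin.cons 1 (fun i => 1 * x i) := by
    simp only [one_mul]
  refine ⟨?_, ?_, ?_⟩
  · intro h
    have := congrFun h 0
    rw [Fin.cons_zero] at this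
    exact one_ne_zero this
  · rintro _ ⟨i, rfl⟩
    rw [h1, aeval_hmg d (F i) (hF i), hx, mul_zero]
  · rw [h1, aeval_Gh, one_pow, one_mul]
    exact hl

section bounds

variable [NumberField K] (σ : K →+* ℂ) (F : ι → MvPolynomial (Fin n) (𝓞 K))
  (G : κ → MvPolynomial (Fin n) (𝓞 K)) {L Ω : Type} [Field L] [Field Ω] [Algebra K L]
  [Algebra L Ω] [Algebra K Ω] [IsScalarTower K L Ω]

/-- **Roots of unity of bounded order.** -/
theorem aff_order [Algebra.IsAlgebraic K Ω] (h : GmCurvesIn σ F G) (d : ℕ) (hd : 1 ≤ d)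
    (hF : ∀ i, (F i).totalDegree ≤ d) (D : ℕ) (hK : CycDegree L Ω D) (V : Fin r → Fin n → L)
    (u : Fin r → Ω) (hu : ∀ j, u j = 0 ∨ ∃ m : ℕ, 0 < m ∧ u j ^ m = 1)
    (hx : AffOn F G (asum u V)) :
    ∃ m, 0 < m ∧ m ≤ (9 * (r + 1) * d * D) ^ (2 * (r + 1)) ∧ ∃ w : Fin r → Ω,
      (∀ j, w j = 0 ∨ w j ^ m = 1) ∧ asum w V = asum u V := by
  classical
  obtain ⟨hx1, l, hl⟩ := hx
  have hlin : lin (Fin.cons 1 u : Fin (r + 1) → Ω) (Vh V) = Fin.cons 1 (asum u V) := by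
    rw [lin_Vh]
    simp
  have hon := onOff_of_affOn F G d hF (asum u V) hx1 l hl
  rw [← hlin] at hon
  obtain ⟨m, hm, hmle, w, c, hw, hc, hwc⟩ := bounded_order (FFh d F) d hd (FFh_hom d F hF)
    (Gh (G l)) (Gh_hom (G l)) (TT n r)
    (fun c l' h1 h2 h3 => hyp_of_gm σ F G h d hF l c l' h1 h2 h3) D hK (Vh V) (Vh_T V)
    (Fin.cons 1 u) (fun j => by
      refine Fin.cases ?_ (fun j => ?_) j
      · right
        exact ⟨1, one_pos, by simp⟩
      · rw [Fin.cons_succ]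
        exact hu j) hon
  have h0 := hwc 0
  rw [lin_Vh, hlin, Fin.cons_zero, Fin.cons_zero, mul_one] at h0
  have hw0 : w 0 ^ m = 1 := (hw 0).resolve_left (by rw [h0]; exact hc)
  refine ⟨m, hm, hmle, fun j => w j.succ / w 0, fun j => ?_, ?_⟩
  · rcases hw j.succ with h1 | h1
    · left
      show w j.succ / w 0 = 0
      rw [h1, zero_div]
    · right
      show (w j.succ / w 0) ^ m = 1
      rw [div_pow, h1, hw0, div_one]
  · funext a
    have h1 := hwc a.succ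
    rw [lin_Vh, hlin, Fin.cons_succ, Fin.cons_succ] at h1
    have h2 : asum (fun j => w j.succ / w 0) V a = (asum (fun j => w j.succ) V a) / w 0 := by
      unfold asum
      rw [Finset.sum_div]
      exact Finset.sum_congr rfl fun j _ => by ring
    rw [h2, h1, h0, mul_div_cancel_left₀ _ hc]

/-- **Radicals with bounded exponents.** -/
theorem aff_radical [IsAlgClosed Ω] [Algebra.IsAlgebraic K Ω] [Algebra.IsAlgebraic L Ω]
    [CharZero L] (h : GmCurvesIn σ F G) (d : ℕ) (hd : 1 ≤ d)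
    (hF : ∀ i, (F i).totalDegree ≤ d) (D : ℕ) (hK : CycDegree L Ω D) (V : Fin r → Fin n → L)
    (u : Fin r → Ω) (hu : ∀ j, ∃ N : ℕ, 0 < N ∧ ∃ a : L, algebraMap L Ω a = u j ^ N)
    (hx : AffOn F G (asum u V)) :
    ∃ B, 0 < B ∧ B ≤ radBound (r + 1) d D ∧ ∃ w : Fin r → Ω,
      (∀ j, ∃ a : L, algebraMap L Ω a = w j ^ B) ∧ asum w V = asum u V := by
  classical
  obtain ⟨hx1, l, hl⟩ := hx
  have hlin : lin (Fin.cons 1 u : Fin (r + 1) → Ω) (Vh V) = Fin.cons 1 (asum u V) := by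
    rw [lin_Vh]
    simp
  have hon := onOff_of_affOn F G d hF (asum u V) hx1 l hl
  rw [← hlin] at hon
  obtain ⟨B, hB, hBle, w, c, hw, hc, hwc⟩ := bounded_radical (FFh d F) d hd (FFh_hom d F hF)
    (Gh (G l)) (Gh_hom (G l)) (TT n r)
    (fun c l' h1 h2 h3 => hyp_of_gm σ F G h d hF l c l' h1 h2 h3) D hK (Vh V) (Vh_T V)
    (Fin.cons 1 u) (fun j => by
      refine Fin.cases ?_ (fun j => ?_) j
      · exact ⟨1, one_pos, 1, by simp⟩
      · rw [Fin.cons_succ]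
        exact hu j) hon
  have h0 := hwc 0
  rw [lin_Vh, hlin, Fin.cons_zero, Fin.cons_zero, mul_one] at h0
  obtain ⟨a0, ha0⟩ := hw 0
  refine ⟨B, hB, hBle, fun j => w j.succ / w 0, fun j => ?_, ?_⟩
  · obtain ⟨a1, ha1⟩ := hw j.succ
    exact ⟨a1 / a0, by rw [map_div₀, ha0, ha1, div_pow]⟩
  · funext a
    have h1 := hwc a.succ
    rw [lin_Vh, hlin, Fin.cons_succ, Fin.cons_succ] at h1
    have h2 : asum (fun j => w j.succ / w 0) V a = (asum (fun j => w j.succ) V a) / w 0 := by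
      unfold asum
      rw [Finset.sum_div]
      exact Finset.sum_congr rfl fun j _ => by ring
    rw [h2, h1, h0, mul_div_cancel_left₀ _ hc]

end bounds

/-- `α` is a cyclotomic integer all of whose conjugates have absolute value at most `B`. -/
def CycHouseQ (B : ℝ) (α : Qbar) : Prop :=
  ∃ (N : ℕ) (f : Polynomial ℤ) (z : Qbar), 0 < N ∧ IsPrimitiveRoot z N ∧
    Polynomial.aeval z f = α ∧ ∀ w : ℂ, IsPrimitiveRoot w N → ‖Polynomial.aeval w f‖ ≤ B

theorem cycHouseQ_zero : CycHouseQ 1 0 :=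
  ⟨1, 0, 1, one_pos, IsPrimitiveRoot.one, by simp, fun w _ => by simp⟩

theorem cycHouseQ_root (η : Qbar) (m : ℕ) (hm : 0 < m) (h : η ^ m = 1) : CycHouseQ 1 η := by
  have h1 : IsPrimitiveRoot η (orderOf η) := IsPrimitiveRoot.orderOf η
  have h2 : 0 < orderOf η := (isOfFinOrder_iff_pow_eq_one.2 ⟨m, hm, h⟩).orderOf_pos
  refine ⟨orderOf η, Polynomial.X, η, h2, h1, by simp, fun w hw => ?_⟩
  rw [Polynomial.aeval_X]
  exact le_of_eq (Complex.norm_eq_one_of_pow_eq_one hw.pow_eq_one h2.ne')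

theorem exists_lengthQ (B : ℝ) : ∃ Λ : ℕ, ∀ α : Qbar, CycHouseQ B α →
    ∃ u : Fin Λ → Qbar, (∀ l, u l = 0 ∨ ∃ m : ℕ, 0 < m ∧ u l ^ m = 1) ∧ ∑ l, u l = α := by
  obtain ⟨Λ, hΛ⟩ := exists_length B
  refine ⟨Λ, ?_⟩
  rintro α ⟨N, f, z, hN, hz, rfl, hB⟩
  have halgQ : Algebra.IsAlgebraic ℚ Qbar := AlgebraicClosure.isAlgebraic ℚ
  let τ : Qbar →ₐ[ℚ] ℂ := IsAlgClosed.lift
  have hτi : Function.Injective τ := (τ : Qbar →+* ℂ).injective
  have h1 : Polynomial.aeval (τ z) f = τ (Polynomial.aeval z f) := by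
    have := Polynomial.aeval_algHom_apply (τ.restrictScalars ℤ) z f
    exact this
  obtain ⟨u, hu, hsum⟩ := hΛ (τ (Polynomial.aeval z f))
    ⟨N, f, τ z, hN, hz.map_of_injective hτi, h1, hB⟩
  have h2 : ∀ l, ∃ y : Qbar, τ y = u l ∧ (y = 0 ∨ ∃ m : ℕ, 0 < m ∧ y ^ m = 1) := by
    intro l
    rcases hu l with h | ⟨m, hm, hm1⟩
    · exact ⟨0, by rw [map_zero, h], Or.inl rfl⟩
    · have : NeZero (m : Qbar) := ⟨by exact_mod_cast hm.ne'⟩
      obtain ⟨ζ, hζ⟩ := HasEnoughRootsOfUnity.exists_primitiveRoot Qbar m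
      have : NeZero m := ⟨hm.ne'⟩
      obtain ⟨i, _, hi⟩ := (hζ.map_of_injective hτi).eq_pow_of_pow_eq_one hm1
      refine ⟨ζ ^ i, by rw [map_pow, hi], Or.inr ⟨m, hm, ?_⟩⟩
      rw [← pow_mul, mul_comm, pow_mul, hζ.pow_eq_one, one_pow]
  choose y hy1 hy2 using h2
  refine ⟨y, hy2, hτi ?_⟩
  rw [map_sum, ← hsum]
  exact Finset.sum_congr rfl fun l _ => hy1 l

/-- finitely many sums of roots of unity of bounded order times given vectors -/
theorem finite_asum {L : Type} [Field L] [Algebra L Qbar] (V : Fin r → Fin n → L) (M : ℕ) :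
    {x : Fin n → Qbar | ∃ m, 0 < m ∧ m ≤ M ∧ ∃ w : Fin r → Qbar,
      (∀ j, w j = 0 ∨ w j ^ m = 1) ∧ asum w V = x}.Finite := by
  classical
  let W : Finset (Fin r → Qbar) := (Finset.Icc 1 M).biUnion fun m =>
    Fintype.piFinset fun _ => insert 0 (Polynomial.nthRootsFinset m (1 : Qbar))
  refine (W.finite_toSet.image (fun w => asum w V)).subset ?_
  rintro x ⟨m, hm, hmM, w, hw, rfl⟩
  refine ⟨w, ?_, rfl⟩
  rw [Finset.mem_coe, Finset.mem_biUnion]
  refine ⟨m, Finset.mem_Icc.2 ⟨hm, hmM⟩, ?_⟩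
  rw [Fintype.mem_piFinset]
  intro j
  rw [Finset.mem_insert, Polynomial.mem_nthRootsFinset hm]
  exact hw j

end Pool.Agent.Q34.RT
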