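import Mathlib
import Pool.Agent.Q34.RT.Aff

set_option autoImplicit false

/-! # Cyclotomic integral points, radical points and entire curves: the equivalence -/

namespace Pool.Agent.Q34.RT

open Finset Pool.Agent.H533R3.SL Pool.Agent.Q34.CL Pool.Agent.Q34.RD Pool.Agent.W235.RM
open Pool.Agent.H159R3.Exp (Laur ExpCurvesIn Laur.common)
open Pool.Agent.Helper259.AbsHt
open scoped NumberField

variable {n r : ℕ} {K : Type} [Field K] {ι κ : Type}

/-- Every point of `V` outside `V'` of the form `∑ u j V j`, with roots of unity or zero `u j` and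
vectors `V 1, …, V r` over a number field `L ⊇ K`, is also given by zero or roots of unity of one order
`m ≤ (9 (r + 1) d [L : ℚ]) ^ (2 (r + 1))`. -/
def OrdersBounded (F : ι → MvPolynomial (Fin n) (𝓞 K)) (G : κ → MvPolynomial (Fin n) (𝓞 K)) :
    Prop :=
  ∀ (d : ℕ), 1 ≤ d → (∀ i, (F i).totalDegree ≤ d) →
    ∀ (L : Type) [Field L] [NumberField L] [Algebra K L] [Algebra K Qbar] [Algebra L Qbar]
      [IsScalarTower K L Qbar] (r : ℕ) (V : Fin r → Fin n → L) (u : Fin r → Qbar),
      (∀ j, u j = 0 ∨ ∃ m : ℕ, 0 < m ∧ u j ^ m = 1) → AffOn F G (asum u V) →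
      ∃ m, 0 < m ∧ m ≤ (9 * (r + 1) * d * Module.finrank ℚ L) ^ (2 * (r + 1)) ∧
        ∃ w : Fin r → Qbar, (∀ j, w j = 0 ∨ w j ^ m = 1) ∧ asum w V = asum u V

/-- For every number field `L ⊇ K`, all `e 1, …, e g` in `L` and every `B`, only finitely many points
of `V` outside `V'` have all coordinates in `∑ i, e i β i`, where the `β i` are cyclotomic integers (of
any conductor) all of whose conjugates have absolute value at most `B`. -/
def CycIntegralFinite (F : ι → MvPolynomial (Fin n) (𝓞 K)) (G : κ → MvPolynomial (Fin n) (𝓞 K)) :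
    Prop :=
  ∀ (L : Type) [Field L] [NumberField L] [Algebra K L] [Algebra K Qbar] [Algebra L Qbar]
    [IsScalarTower K L Qbar] (g : ℕ) (e : Fin g → L) (B : ℝ),
    {x : Fin n → Qbar | AffOn F G x ∧ ∀ a, ∃ β : Fin g → Qbar, (∀ i, CycHouseQ B (β i)) ∧
      x a = ∑ i, algebraMap L Qbar (e i) * β i}.Finite

/-- Every point of `V` outside `V'` of the form `∑ u j V j`, where the `u j` have a power in a number
field `L ⊇ K` and the `V j` are vectors over `L`, is also given by `w j` with `w j ^ B ∈ L` for one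
exponent `B ≤ radBound (r + 1) d [L : ℚ]`. -/
def ExponentsBounded (F : ι → MvPolynomial (Fin n) (𝓞 K)) (G : κ → MvPolynomial (Fin n) (𝓞 K)) :
    Prop :=
  ∀ (d : ℕ), 1 ≤ d → (∀ i, (F i).totalDegree ≤ d) →
    ∀ (L : Type) [Field L] [NumberField L] [Algebra K L] [Algebra K Qbar] [Algebra L Qbar]
      [IsScalarTower K L Qbar] (r : ℕ) (V : Fin r → Fin n → L) (u : Fin r → Qbar),
      (∀ j, ∃ N : ℕ, 0 < N ∧ ∃ a : L, algebraMap L Qbar a = u j ^ N) → AffOn F G (asum u V) →
      ∃ B, 0 < B ∧ B ≤ radBound (r + 1) d (Module.finrank ℚ L) ∧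
        ∃ w : Fin r → Qbar, (∀ j, ∃ a : L, algebraMap L Qbar a = w j ^ B) ∧
          asum w V = asum u V

/-- For every number field `L ⊇ K`, all `r` and `H`, only finitely many points of `V` outside `V'` of
height at most `H` are of the form `∑ u j V j`, a sum of `r` terms, where the `u j` have a power in
`L` and the `V j` are vectors over `L`. -/
def RadicalNorthcott (F : ι → MvPolynomial (Fin n) (𝓞 K)) (G : κ → MvPolynomial (Fin n) (𝓞 K)) :
    Prop :=
  ∀ (L : Type) [Field L] [NumberField L] [Algebra K L] [Algebra K Qbar] [Algebra L Qbar]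
    [IsScalarTower K L Qbar] (r : ℕ) (H : ℝ),
    {x : Fin n → Qbar | AffOn F G x ∧ absLogHeight (Fin.cons 1 x : Fin (n + 1) → Qbar) ≤ H ∧
      ∃ (V : Fin r → Fin n → L) (u : Fin r → Qbar),
        (∀ j, ∃ N : ℕ, 0 < N ∧ ∃ a : L, algebraMap L Qbar a = u j ^ N) ∧ x = asum u V}.Finite

section proofs

theorem cyc_of_orders [Finite ι] (F : ι → MvPolynomial (Fin n) (𝓞 K))
    (G : κ → MvPolynomial (Fin n) (𝓞 K)) (h : OrdersBounded F G) : CycIntegralFinite F G := by
  classical
  have := Fintype.ofFinite ι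
  intro L _ _ _ _ _ _ g e B
  obtain ⟨Λ, hΛ⟩ := exists_lengthQ B
  set d : ℕ := ∑ i, (F i).totalDegree + 1 with hd
  have hF : ∀ i, (F i).totalDegree ≤ d := by
    intro i
    have := Finset.single_le_sum (f := fun i => (F i).totalDegree) (fun _ _ => Nat.zero_le _)
      (Finset.mem_univ i)
    omega
  let I := Fin n × Fin g × Fin Λ
  let eq := Fintype.equivFin I
  set r := Fintype.card I with hr
  let V : Fin r → Fin n → L := fun j b =>
    if (eq.symm j).1 = b then e (eq.symm j).2.1 else 0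
  refine (finite_asum V ((9 * (r + 1) * d * Module.finrank ℚ L) ^ (2 * (r + 1)))).subset ?_
  rintro x ⟨hx, hβ⟩
  choose β hβ1 hβ2 using hβ
  choose v hv hvs using fun a i => hΛ (β a i) (hβ1 a i)
  let u : Fin r → Qbar := fun j => v (eq.symm j).1 (eq.symm j).2.1 (eq.symm j).2.2
  have hxu : asum u V = x := by
    funext b
    unfold asum
    rw [← Equiv.sum_comp eq]
    have h1 : ∀ p : I, u (eq p) * algebraMap L Qbar (V (eq p) b) =
        if p.1 = b then v p.1 p.2.1 p.2.2 * algebraMap L Qbar (e p.2.1) else 0 := by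
      intro p
      simp only [u, V, Equiv.symm_apply_apply]
      split_ifs with h
      · rfl
      · rw [map_zero, mul_zero]
    rw [Finset.sum_congr rfl fun p _ => h1 p, Fintype.sum_prod_type, Finset.sum_eq_single b]
    · simp only [if_true]
      rw [Fintype.sum_prod_type, hβ2]
      refine Finset.sum_congr rfl fun i _ => ?_
      rw [← hvs b i, Finset.mul_sum]
      exact Finset.sum_congr rfl fun l _ => mul_comm _ _
    · intro a _ hab
      refine Finset.sum_eq_zero fun p _ => ?_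
      rw [if_neg hab]
    · intro h2
      exact absurd (Finset.mem_univ b) h2
  obtain ⟨m, hm, hmle, w, hw, hws⟩ := h d (by omega) hF L r V u (fun j => hv _ _ _)
    (by rw [hxu]; exact hx)
  exact ⟨m, hm, hmle, w, hw, hws.trans hxu⟩

theorem northcott_of_exponents [Finite ι] (F : ι → MvPolynomial (Fin n) (𝓞 K))
    (G : κ → MvPolynomial (Fin n) (𝓞 K)) (h : ExponentsBounded F G) : RadicalNorthcott F G := by
  classical
  have := Fintype.ofFinite ι
  intro L _ _ _ _ _ _ r H
  set d : ℕ := ∑ i, (F i).totalDegree + 1 with hd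
  have hF : ∀ i, (F i).totalDegree ≤ d := by
    intro i
    have := Finset.single_le_sum (f := fun i => (F i).totalDegree) (fun _ _ => Nat.zero_le _)
      (Finset.mem_univ i)
    omega
  set R := radBound (r + 1) d (Module.finrank ℚ L) ^ r with hR
  have hT := Pool.Agent.H58W.northcott (Module.finrank ℚ L * R) H
  refine (Set.Finite.pi' (t := fun _ : Fin n => {α : Qbar |
    (minpoly ℚ α).natDegree ≤ Module.finrank ℚ L * R ∧ absLogHeight ![1, α] ≤ H})
    fun _ => hT).subset ?_
  rintro x ⟨hx, hH, V, u, hu, rfl⟩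
  obtain ⟨B, hB0, hB, w, hw, hws⟩ := h d (by omega) hF L r V u hu hx
  obtain ⟨K', hfd, hrank, hmem⟩ := radical_field B hB0 w hw Finset.univ
  rw [Finset.card_univ, Fintype.card_fin] at hrank
  intro a
  have hmem' : asum u V a ∈ K' := by
    rw [← hws]
    exact sum_mem fun j _ => mul_mem (hmem j (Finset.mem_univ j)) (K'.algebraMap_mem _)
  constructor
  · have hfdQ : FiniteDimensional ℚ K' := FiniteDimensional.trans ℚ L K'
    have h3 : Module.finrank ℚ L * Module.finrank L K' = Module.finrank ℚ K' :=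
      Module.finrank_mul_finrank _ _ _
    have h5 : minpoly ℚ (algebraMap K' Qbar ⟨_, hmem'⟩) = minpoly ℚ (⟨_, hmem'⟩ : K') :=
      minpoly.algebraMap_eq (algebraMap K' Qbar).injective _
    have h6 : (minpoly ℚ (⟨_, hmem'⟩ : K')).natDegree ≤ Module.finrank ℚ K' :=
      minpoly.natDegree_le _
    rw [← h5, ← h3] at h6
    exact h6.trans (Nat.mul_le_mul_left _ (hrank.trans (Nat.pow_le_pow_left hB r)))
  · have h1 : (![1, asum u V a] : Fin 2 → Qbar) =
        (Fin.cons 1 (asum u V) : Fin (n + 1) → Qbar) ∘ ![0, a.succ] := by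
      funext j
      fin_cases j
      · simp
      · simp
    rw [h1]
    exact (absLogHeight_comp_le ![0, a.succ] _).trans hH

/-- the data given by a Laurent curve -/
theorem data_of_hasLaurent (F : ι → MvPolynomial (Fin n) (𝓞 K))
    (G : κ → MvPolynomial (Fin n) (𝓞 K)) (d : ℕ) (hF : ∀ i, (F i).totalDegree ≤ d)
    (h : HasLaurent F G) :
    ∃ (L : Type) (_ : Field L) (_ : NumberField L) (_ : Algebra K L) (l : κ) (N : ℕ)
      (w : Fin N → Fin (n + 1) → L) (j0 : Fin N),
      (w j0 0 = 1 ∧ ∀ j, j ≠ j0 → w j 0 = 0) ∧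
      (∀ P ∈ FFh d F, MvPolynomial.aeval (cur w (fun j => (j : ℕ))) P = 0) ∧
      (∃ i j, cur w (fun j => (j : ℕ)) i * Polynomial.C ((cur w (fun j => (j : ℕ)) j).eval 1) ≠
        cur w (fun j => (j : ℕ)) j * Polynomial.C ((cur w (fun j => (j : ℕ)) i).eval 1)) ∧
      MvPolynomial.aeval (fun i => (cur w (fun j => (j : ℕ)) i).eval 1) (Gh (G l)) ≠ 0 := by
  classical
  obtain ⟨L, iL, iN, iA, v, hv, hvF, ⟨l, hl⟩, k1, j1, hk1⟩ := h
  obtain ⟨M, Q, hQ⟩ := Laur.common v hv
  let p : Fin (n + 1) → Polynomial L := Fin.cons (Polynomial.X ^ M) Q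
  let N : ℕ := Finset.univ.sup (fun i => (p i).natDegree) + M + 1
  have hN : ∀ i, (p i).natDegree < N := by
    intro i
    have := Finset.le_sup (f := fun i => (p i).natDegree) (Finset.mem_univ i)
    simp only [N]
    omega
  have hMN : M < N := by
    simp only [N]
    omega
  let w : Fin N → Fin (n + 1) → L := fun j i => (p i).coeff j
  have hcur : cur w (fun j => (j : ℕ)) = p := by
    funext i
    unfold cur
    show ∑ j : Fin N, Polynomial.C ((p i).coeff j) * Polynomial.X ^ (j : ℕ) = p i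
    rw [Fin.sum_univ_eq_sum_range (fun j => Polynomial.C ((p i).coeff j) *
      (Polynomial.X : Polynomial L) ^ j) N]
    exact ((p i).as_sum_range_C_mul_X_pow' (hN i)).symm
  have hpt : ∀ t : L, t ≠ 0 → (fun b => (p b).eval t) =
      Fin.cons (t ^ M) (fun a => t ^ M * v t a) := by
    intro t ht
    funext b
    refine Fin.cases ?_ (fun a => ?_) b
    · simp [p]
    · simp only [p, Fin.cons_succ]
      rw [hQ t ht, mul_div_cancel₀ _ (pow_ne_zero _ ht)]
  have hev : ∀ (P : MvPolynomial (Fin (n + 1)) K) (t : L),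
      (MvPolynomial.aeval p P).eval t = MvPolynomial.aeval (fun b => (p b).eval t) P := by
    intro P t
    exact MvPolynomial.comp_aeval_apply (R := K) p
      ((Polynomial.aeval t : Polynomial L →ₐ[L] L).restrictScalars K) P
  refine ⟨L, iL, iN, iA, l, N, w, ⟨M, hMN⟩, ⟨?_, ?_⟩, ?_, ?_, ?_⟩
  · show (Polynomial.X ^ M : Polynomial L).coeff M = 1
    rw [Polynomial.coeff_X_pow, if_pos rfl]
  · intro j hj
    show (Polynomial.X ^ M : Polynomial L).coeff j = 0
    rw [Polynomial.coeff_X_pow, if_neg]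
    intro h
    exact hj (Fin.ext h)
  · rw [hcur]
    rintro _ ⟨i, rfl⟩
    refine Polynomial.eq_zero_of_infinite_isRoot _ ?_
    refine Set.Infinite.mono ?_ ((Set.finite_singleton (0 : L)).infinite_compl)
    intro t ht
    have ht' : t ≠ 0 := ht
    show Polynomial.eval t _ = 0
    rw [hev, hpt t ht', aeval_hmg d (F i) (hF i), hvF i t ht', mul_zero]
  · rw [hcur]
    refine ⟨j1.succ, 0, fun heq => hk1 ?_⟩
    have h2 : ((2 : L) ^ k1) ≠ 0 := pow_ne_zero _ two_ne_zero
    have h3 := congrArg (Polynomial.eval ((2 : L) ^ k1)) heq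
    have e1 := congrFun (hpt _ h2) j1.succ
    have e2 := congrFun (hpt _ h2) 0
    have e3 := congrFun (hpt 1 one_ne_zero) j1.succ
    have e4 := congrFun (hpt 1 one_ne_zero) 0
    rw [Fin.cons_succ] at e1 e3
    rw [Fin.cons_zero] at e2 e4
    rw [Polynomial.eval_mul, Polynomial.eval_mul, Polynomial.eval_C, Polynomial.eval_C, e1, e2,
      e3, e4, one_pow, mul_one, one_mul] at h3
    exact mul_left_cancel₀ (pow_ne_zero M h2) h3
  · rw [hcur, hpt 1 one_ne_zero, aeval_Gh, one_pow, one_pow, one_mul]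
    exact hl

/-- a Laurent curve has infinitely many points given by roots of unity -/
theorem infinite_of_hasLaurent [NumberField K] (F : ι → MvPolynomial (Fin n) (𝓞 K))
    (G : κ → MvPolynomial (Fin n) (𝓞 K)) (d : ℕ) (hF : ∀ i, (F i).totalDegree ≤ d)
    (h : HasLaurent F G) :
    ∃ (L : Type) (_ : Field L) (_ : NumberField L) (_ : Algebra K L) (_ : Algebra K Qbar)
      (_ : Algebra L Qbar) (_ : IsScalarTower K L Qbar) (N : ℕ) (V : Fin N → Fin n → L) (H : ℝ),
      {x : Fin n → Qbar | AffOn F G x ∧ absLogHeight (Fin.cons 1 x : Fin (n + 1) → Qbar) ≤ H ∧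
        ∃ u : Fin N → Qbar, (∀ j, u j = 0 ∨ ∃ m : ℕ, 0 < m ∧ u j ^ m = 1) ∧
          x = asum u V}.Infinite := by
  classical
  obtain ⟨L, iL, iN, iA, l, N, w, j0, ⟨hw0, hw1⟩, h1, h2, h3⟩ := data_of_hasLaurent F G d hF h
  obtain ⟨φ⟩ : Nonempty (L →+* Qbar) := by
    have halg : Algebra.IsAlgebraic ℚ L := inferInstance
    exact ⟨(IsAlgClosed.lift : L →ₐ[ℚ] Qbar).toRingHom⟩
  let iLQ : Algebra L Qbar := φ.toAlgebra
  let iKQ : Algebra K Qbar := (φ.comp (algebraMap K L)).toAlgebra
  have htow : IsScalarTower K L Qbar := IsScalarTower.of_algebraMap_eq fun _ => rfl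
  refine ⟨L, iL, iN, iA, iKQ, iLQ, htow, N, fun j a => w j a.succ,
    N + Pool.Agent.Y215.SK.hV (fun j i => algebraMap L Qbar (w j i)), ?_⟩
  have hinf := curve_infinite (C := Qbar) (FFh d F) (Gh (G l)) N w h1 h2 h3
  intro hfin
  apply hinf
  let pt : (Fin n → Qbar) → Projectivization Qbar (Fin (n + 1) → Qbar) := fun x =>
    Projectivization.mk Qbar (Fin.cons 1 x : Fin (n + 1) → Qbar) (fun h => by
      have := congrFun h 0
      rw [Fin.cons_zero] at this
      exact one_ne_zero this)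
  refine (hfin.image pt).subset ?_
  intro P hP
  have hPht := cycPts_height (FFh d F) (Gh (G l)) w P hP
  obtain ⟨u, hu, hne, rfl, hon⟩ := hP
  rw [rep_height] at hPht
  set s : Fin (n + 1) → Qbar := lin u w with hs
  have hs0u : s 0 = u j0 := by
    show ∑ j, u j * algebraMap L Qbar (w j 0) = u j0
    rw [Finset.sum_eq_single j0]
    · rw [hw0, map_one, mul_one]
    · intro j _ hj
      rw [hw1 j hj, map_zero, mul_zero]
    · intro h
      exact absurd (Finset.mem_univ _) h
  have hs0 : s 0 ≠ 0 := by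
    intro h0
    apply hon.2.2
    unfold Gh
    rw [map_mul, MvPolynomial.aeval_X, h0, zero_mul]
  have hscons : s = Fin.cons (s 0) (fun a => s 0 * (s a.succ / s 0)) := cons_eq s hs0
  have hsmul : s = s 0 • (Fin.cons 1 (fun a => s a.succ / s 0) : Fin (n + 1) → Qbar) := by
    funext b
    refine Fin.cases ?_ (fun a => ?_) b
    · simp
    · rw [Pi.smul_apply, Fin.cons_succ, smul_eq_mul, mul_div_cancel₀ _ hs0]
  obtain ⟨m0, hm0, hum0⟩ := (hu j0).resolve_left (by rw [← hs0u]; exact hs0)
  refine ⟨fun a => s a.succ / s 0, ⟨⟨?_, l, ?_⟩, ?_, fun j => u j / u j0, fun j => ?_, ?_⟩, ?_⟩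
  · intro i
    have h4 := hon.2.1 _ ⟨i, rfl⟩
    have h5 : MvPolynomial.aeval s (MvPolynomial.map (algebraMap (𝓞 K) K) (hmg d (F i))) = 0 := h4
    rw [hscons, aeval_hmg d (F i) (hF i)] at h5
    exact (mul_eq_zero.1 h5).resolve_left (pow_ne_zero _ hs0)
  · intro h4
    apply hon.2.2
    rw [hscons, aeval_Gh, h4, mul_zero]
  · rw [← absLogHeight_smul _ hs0, ← hsmul]
    exact hPht
  · rcases hu j with h | ⟨m, hm, hm1⟩
    · left
      show u j / u j0 = 0
      rw [h, zero_div]
    · right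
      refine ⟨m * m0, Nat.mul_pos hm hm0, ?_⟩
      rw [div_pow, pow_mul, hm1, one_pow, mul_comm, pow_mul, hum0, one_pow, div_one]
  · funext a
    show s a.succ / s 0 = ∑ j, u j / u j0 * algebraMap L Qbar (w j a.succ)
    rw [hs0u]
    show (∑ j, u j * algebraMap L Qbar (w j a.succ)) / u j0 = _
    rw [Finset.sum_div]
    exact Finset.sum_congr rfl fun j _ => by ring
  · show pt _ = Projectivization.mk Qbar s hne
    rw [Projectivization.mk_eq_mk_iff']
    refine ⟨(s 0)⁻¹, ?_⟩
    rw [hsmul, smul_smul]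
    simp only [Pi.smul_apply, Fin.cons_zero, smul_eq_mul, mul_one]
    rw [inv_mul_cancel₀ hs0, one_smul]
    congr 1
    funext a
    rw [Fin.cons_succ]
    rw [mul_div_cancel₀ _ hs0]

/-- **The equivalence.** -/
theorem tfae [NumberField K] [Finite ι] (σ : K →+* ℂ) (F : ι → MvPolynomial (Fin n) (𝓞 K))
    (G : κ → MvPolynomial (Fin n) (𝓞 K)) :
    List.TFAE [ExpCurvesIn σ F G, GmCurvesIn σ F G, CycIntegralFinite F G, OrdersBounded F G,
      RadicalNorthcott F G, ExponentsBounded F G] := by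
  classical
  have := Fintype.ofFinite ι
  have halgQ : Algebra.IsAlgebraic ℚ Qbar := AlgebraicClosure.isAlgebraic ℚ
  have hd : ∃ d : ℕ, ∀ i, (F i).totalDegree ≤ d := by
    refine ⟨∑ i, (F i).totalDegree, fun i => ?_⟩
    exact Finset.single_le_sum (f := fun i => (F i).totalDegree) (fun _ _ => Nat.zero_le _)
      (Finset.mem_univ i)
  tfae_have 1 → 2 := fun h => by
    by_contra h2
    exact not_exp_of_not_gm σ F G h2 h
  tfae_have 2 → 4 := fun h d hd hF L _ _ _ _ _ _ r V u hu hx => by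
    have : Algebra.IsAlgebraic K Qbar := Algebra.IsAlgebraic.tower_top (K := ℚ) K
    exact aff_order σ F G h d hd hF (Module.finrank ℚ L)
      (cycDegree_numberField L Qbar _ le_rfl) V u hu hx
  tfae_have 4 → 3 := cyc_of_orders F G
  tfae_have 2 → 6 := fun h d hd hF L _ _ _ _ _ _ r V u hu hx => by
    have : Algebra.IsAlgebraic K Qbar := Algebra.IsAlgebraic.tower_top (K := ℚ) K
    have : Algebra.IsAlgebraic L Qbar := Algebra.IsAlgebraic.tower_top (K := ℚ) L
    exact aff_radical σ F G h d hd hF (Module.finrank ℚ L)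
      (cycDegree_numberField L Qbar _ le_rfl) V u hu hx
  tfae_have 6 → 5 := northcott_of_exponents F G
  tfae_have 5 → 1 := fun h => by
    by_contra h2
    obtain ⟨d, hF⟩ := hd
    obtain ⟨L, iL, iN, iA, iKQ, iLQ, htow, N, V, H, hinf⟩ :=
      infinite_of_hasLaurent F G d hF (hasLaurent_of_exp F G σ h2)
    apply hinf
    refine (h L N H).subset ?_
    rintro x ⟨hx, hH, u, hu, rfl⟩
    refine ⟨hx, hH, V, u, fun j => ?_, rfl⟩
    rcases hu j with h0 | ⟨m, hm, hm1⟩
    · exact ⟨1, one_pos, 0, by rw [map_zero, h0, pow_one]⟩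
    · exact ⟨m, hm, 1, by rw [map_one, hm1]⟩
  tfae_have 3 → 1 := fun h => by
    by_contra h2
    obtain ⟨d, hF⟩ := hd
    obtain ⟨L, iL, iN, iA, iKQ, iLQ, htow, N, V, H, hinf⟩ :=
      infinite_of_hasLaurent F G d hF (hasLaurent_of_exp F G σ h2)
    apply hinf
    let eq := Fintype.equivFin (Fin N × Fin n)
    refine (h L (Fintype.card (Fin N × Fin n))
      (fun j => V (eq.symm j).1 (eq.symm j).2) 1).subset ?_
    rintro x ⟨hx, hH, u, hu, rfl⟩
    refine ⟨hx, fun a => ⟨fun j => if (eq.symm j).2 = a then u (eq.symm j).1 else 0,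
      fun j => ?_, ?_⟩⟩
    · show CycHouseQ 1 (if (eq.symm j).2 = a then u (eq.symm j).1 else 0)
      split_ifs
      · rcases hu (eq.symm j).1 with h0 | ⟨m, hm, hm1⟩
        · rw [h0]
          exact cycHouseQ_zero
        · exact cycHouseQ_root _ m hm hm1
      · exact cycHouseQ_zero
    · rw [← Equiv.sum_comp eq]
      simp only [Equiv.symm_apply_apply]
      rw [Fintype.sum_prod_type]
      unfold asum
      refine Finset.sum_congr rfl fun j _ => ?_
      rw [Finset.sum_eq_single a]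
      · rw [if_pos rfl, mul_comm]
      · intro b _ hb
        rw [if_neg hb, mul_zero]
      · intro h3
        exact absurd (Finset.mem_univ a) h3
  tfae_finish

end proofs

end Pool.Agent.Q34.RT
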